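import Mathlib
import Pool.Agent.V11320.EW.Fin

set_option autoImplicit false

namespace Pool.Agent.Results.MP_758450_pr.RightTransient

open MeasureTheory ProbabilityTheory Filter Topology Pool.Agent.V11320.EW

/-- There is an identically piled, uniformly elliptic cookie environment `p` (with all `p i` in
`[κ, 1 - κ]`, `κ > 0`) for which `μ = lim E[U(x)]/x` exists and equals `1`, `θ = lim θ(x)` exists
and equals `1`, and for which the excited random walk is right transient: every process with the
law of the excited random walk in the environment `p` tends to `+∞` almost surely.  The last two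
clauses say that such trials and such a walk exist. -/
theorem result :
    ∃ (p : ℕ → ℝ) (κ : ℝ), 0 < κ ∧ (∀ i, κ ≤ p i ∧ p i ≤ 1 - κ) ∧
      (∀ (Ω : Type) [MeasurableSpace Ω] (P : Measure Ω) [IsProbabilityMeasure P]
        (B : ℕ → Ω → Bool), IsTrials p P B →
          (∀ x, Integrable (fun ω => (UU B x ω : ℝ)^2) P) ∧
          Tendsto (fun x : ℕ => (∫ ω, (UU B x ω : ℝ) ∂P) / x) atTop (𝓝 1) ∧
          Tendsto (fun x : ℕ => theta P B 1 x) atTop (𝓝 1)) ∧
      (∀ (Ω : Type) [MeasurableSpace Ω] (P : Measure Ω) [IsProbabilityMeasure P]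
        (X : ℕ → Ω → ℤ), IsERW p P X → ∀ᵐ ω ∂P, Tendsto (fun n => X n ω) atTop atTop) ∧
      (∃ (Ω : Type) (_ : MeasurableSpace Ω) (P : Measure Ω) (B : ℕ → Ω → Bool),
        IsProbabilityMeasure P ∧ IsTrials p P B) ∧
      (∃ (Ω : Type) (_ : MeasurableSpace Ω) (P : Measure Ω) (X : ℕ → Ω → ℤ),
        IsProbabilityMeasure P ∧ IsERW p P X) :=
  ⟨pp, 1/4, by norm_num, pp_main.1, pp_main.2.1, pp_main.2.2,
    ⟨ℕ → Bool, inferInstance, cl pp, fun i b => b i, inferInstance, exists_trials⟩,
    ⟨ℤ → ℕ → Bool, inferInstance, AM qq, fun n ω => XA ω n, inferInstance, arrow_isERW pp_succ⟩⟩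

end Pool.Agent.Results.MP_758450_pr.RightTransient
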